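import Pool.Agent.helper33.SP.SpecC1S
import Pool.Agent.helper96.DP.Basic

/-!
# Module UJ9 of project sp: two gates and four arms through both, the bits are equal
-/

namespace TP

open DP MeasureTheory

theorem UJ9_out {c : V → Bool} {k : Bool} {x u v : V} {a n n' : ℕ}
    (h : Conn c k (ann x a n') u v) (hu : sd x u ≤ n) (hv : n ≤ sd x v) :
    ∃ w ∈ bd x n, Conn c k (ann x a n) u w ∧ Conn c k (ann x a n') w v := by
  obtain ⟨w, hw, h1, h2⟩ := DP.Con.exit h hu hv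
  refine ⟨w, hw, h1.mono ?_, h2⟩
  rintro z ⟨⟨hz1, hz2⟩, hz3⟩
  exact ⟨⟨hz1.1, hz3⟩, hz2⟩

theorem UJ9_in {c : V → Bool} {k : Bool} {x u v : V} {a m n' : ℕ}
    (h : Conn c k (ann x a n') u v) (hu : sd x u ≤ m) (hv : m ≤ sd x v) :
    ∃ w ∈ bd x m, Conn c k (ann x m n') w v ∧ Conn c k (ann x a n') u w := by
  obtain ⟨w, hw, h1, h2⟩ := DP.Con.enter (DP.Con.symm h) hv hu
  refine ⟨w, hw, (h1.mono ?_).symm, h2.symm⟩
  rintro z ⟨⟨hz1, hz2⟩, hz3⟩
  exact ⟨⟨hz3, hz1.2⟩, hz2⟩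

theorem UJ9_ann {x : V} {a m n n' : ℕ} (h1 : a ≤ m) (h2 : n ≤ n') : ann x m n ⊆ ann x a n' :=
  fun _ h => ⟨h1.trans h.1, h.2.trans h2⟩

theorem UJ9_box {x : V} {a n n' : ℕ} (h2 : n ≤ n') : ann x a n ⊆ box x n' :=
  fun _ h => h.2.trans h2

/-- In a gate every crossing site of the inner circle is connected to one of two given ones. -/
theorem UJ9_three {c : V → Bool} {x u v w : V} {m n : ℕ} (h3 : ¬ Three c x m n)
    (hu : u ∈ bd x m) (hv : v ∈ bd x m) (hw : w ∈ bd x m)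
    (cu : ∃ u' ∈ bd x n, Conn c true (ann x m n) u u')
    (cv : ∃ u' ∈ bd x n, Conn c true (ann x m n) v u')
    (cw : ∃ u' ∈ bd x n, Conn c true (ann x m n) w u')
    (huv : ¬ Conn c true (ann x m n) u v) :
    Conn c true (ann x m n) u w ∨ Conn c true (ann x m n) v w := by
  by_contra h
  push Not at h
  exact h3 ⟨u, hu, v, hv, w, hw, cu, cv, cw, huv, h.2, h.1⟩

/-- The two clusters of a gate are connected in a larger region if the bit is one. -/
theorem UJ9_pair {c : V → Bool} {x u v : V} {m n : ℕ} (h3 : ¬ Three c x m n)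
    (hu : u ∈ bd x m) (hv : v ∈ bd x m)
    (cu : ∃ u' ∈ bd x n, Conn c true (ann x m n) u u')
    (cv : ∃ u' ∈ bd x n, Conn c true (ann x m n) v u')
    (huv : ¬ Conn c true (ann x m n) u v) (hb0 : hb c x m n) : Conn c true (box x n) u v := by
  obtain ⟨s, hs, t, ht, ⟨p, hp, hps⟩, ⟨q, hq, hqt⟩, hst, hbox⟩ := hb0
  have e1 := UJ9_three h3 hu hv hp cu cv ⟨s, hs, hps⟩ huv
  have e2 := UJ9_three h3 hu hv hq cu cv ⟨t, ht, hqt⟩ huv
  have hsub : ann x m n ⊆ box x n := UJ9_box le_rfl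
  rcases e1 with e1 | e1 <;> rcases e2 with e2 | e2
  · exact absurd ((hps.symm.trans e1.symm).trans (e2.trans hqt)) hst
  · exact (((e1.trans hps).mono hsub).trans hbox).trans ((hqt.symm.trans e2.symm).mono hsub)
  · exact (((e2.trans hqt).mono hsub).trans hbox.symm).trans ((hps.symm.trans e1.symm).mono hsub)
  · exact absurd ((hps.symm.trans e1.symm).trans (e2.trans hqt)) hst

theorem UJ9 : UJ9_stmt := by
  intro c x a n m n' ha han hnm hmn hg1 hg2 hfour
  obtain ⟨u₀, hu₀, v₀, hv₀, ⟨u₀', hu₀', hcu⟩, ⟨v₀', hv₀', hcv⟩, hne⟩ := hfour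
  have su : sd x u₀ = a := hu₀
  have sv : sd x v₀ = a := hv₀
  have su' : sd x u₀' = n' := hu₀'
  have sv' : sd x v₀' = n' := hv₀'
  -- the crossings of the small and of the large annulus
  obtain ⟨u₂, hu₂, cu₂, -⟩ := UJ9_out (n := n) hcu (by omega) (by omega)
  obtain ⟨v₂, hv₂, cv₂, -⟩ := UJ9_out (n := n) hcv (by omega) (by omega)
  obtain ⟨u₁, hu₁, cu₁, du₁⟩ := UJ9_in (m := m) hcu (by omega) (by omega)
  obtain ⟨v₁, hv₁, cv₁, dv₁⟩ := UJ9_in (m := m) hcv (by omega) (by omega)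
  have hA1 : ann x a n ⊆ ann x a n' := UJ9_ann le_rfl (by omega)
  have hA2 : ann x m n' ⊆ ann x a n' := UJ9_ann (by omega) le_rfl
  have hA3 : ann x a n' ⊆ box x n' := UJ9_box le_rfl
  have hB : box x n ⊆ box x n' := fun _ h => le_trans h (by omega : n ≤ n')
  constructor
  · intro h
    have h1 : Conn c true (box x n) u₀ v₀ := UJ9_pair hg1.2 hu₀ hv₀ ⟨u₂, hu₂, cu₂⟩
      ⟨v₂, hv₂, cv₂⟩ (fun e => hne (e.mono hA1)) h
    refine ⟨u₀', hu₀', v₀', hv₀', ⟨u₁, hu₁, cu₁⟩, ⟨v₁, hv₁, cv₁⟩, fun e => hne ?_, ?_⟩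
    · exact (hcu.trans (e.mono hA2)).trans hcv.symm
    · exact ((hcu.symm.mono hA3).trans (h1.mono hB)).trans (hcv.mono hA3)
  · intro h
    have h1 : Conn c true (box x n') u₁ v₁ := UJ9_pair hg2.2 hu₁ hv₁ ⟨u₀', hu₀', cu₁⟩
      ⟨v₀', hv₀', cv₁⟩ (fun e => hne ((du₁.trans (e.mono hA2)).trans dv₁.symm)) h
    have h2 : Conn c true (box x n') u₀ v₀ :=
      ((du₁.mono hA3).trans h1).trans (dv₁.symm.mono hA3)
    have cu0 : c u₀ = true := hcu.colour_left
    have key := DP.Con.induct h2 (fun w => Conn c true (ann x a n') u₀ w ∨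
      (¬ Conn c true (ann x a n') u₀ w ∧ ¬ Conn c true (ann x a n') v₀ w ∧
        (∃ s ∈ bd x a, Conn c true (ann x a n') u₀ s ∧ Conn c true (box x n) s w) ∧
        sd x w < n ∧ (a ≤ sd x w → ∃ l ∈ bd x a, Conn c true (ann x a n) l w)) ∨
      ∃ s ∈ bd x a, ∃ t ∈ bd x a, Conn c true (ann x a n') u₀ s ∧
        Conn c true (ann x a n') v₀ t ∧ Conn c true (box x n) s t)
      (Or.inl (DP.Con.refl ⟨⟨su.ge, by omega⟩, cu0⟩)) ?_
    · rcases key with h3 | ⟨-, h3, -⟩ | ⟨s, hs, t, ht, e1, e2, e3⟩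
      · exact absurd h3 hne
      · exact (h3 (DP.Con.refl ⟨⟨sv.ge, by omega⟩, hcv.colour_left⟩)).elim
      · have hs' : sd x s = a := hs
        have ht' : sd x t = a := ht
        obtain ⟨u, hu, e4, -⟩ := UJ9_out (n := n) (e1.symm.trans hcu) (by omega) (by omega)
        obtain ⟨v, hv, e5, -⟩ := UJ9_out (n := n) (e2.symm.trans hcv) (by omega) (by omega)
        have hsub : ann x a n ⊆ box x n := UJ9_box le_rfl
        refine ⟨u, hu, v, hv, ⟨s, hs, e4⟩, ⟨t, ht, e5⟩, fun e => hne ?_, ?_⟩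
        · exact (e1.trans (((e4.trans e).trans e5.symm).mono hA1)).trans e2.symm
        · exact ((e4.symm.mono hsub).trans e3).trans (e5.mono hsub)
    · rintro w w' ⟨hw, cw⟩ ⟨hw', cw'⟩ hadj - hP
      have hw'n : sd x w' ≤ n' := hw'
      have hwn : sd x w ≤ n' := hw
      have l1 := hadj.sd_le x
      have l2 := hadj.symm.sd_le x
      rcases hP with h3 | ⟨h3, h4, ⟨s, hs, e1, e2⟩, hlt, h5⟩ | h3
      · -- `w` is in the cluster of `u₀`
        by_cases hA : a ≤ sd x w'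
        · exact Or.inl (DP.Con.tail h3 hadj ⟨⟨hA, hw'n⟩, cw'⟩)
        · have hwa : a ≤ sd x w := h3.mem_right.1
          have hwa' : sd x w = a := by omega
          refine Or.inr (Or.inl ⟨fun e => hA e.mem_right.1, fun e => hA e.mem_right.1,
            ⟨w, hwa', h3, DP.Con.single ⟨?_, cw⟩ hadj ⟨?_, cw'⟩⟩, by omega, fun e => absurd e hA⟩)
          · show sd x w ≤ n
            omega
          · show sd x w' ≤ n
            omega
      · by_cases c1 : Conn c true (ann x a n') u₀ w'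
        · exact Or.inl c1
        by_cases c2 : Conn c true (ann x a n') v₀ w'
        · -- the end of the excursion
          have hA : ¬ a ≤ sd x w := fun hA => h4 (DP.Con.tail c2 hadj.symm ⟨⟨hA, hwn⟩, cw⟩)
          have hA' : a ≤ sd x w' := c2.mem_right.1
          have hwa' : sd x w' = a := by omega
          refine Or.inr (Or.inr ⟨s, hs, w', hwa', e1, c2, DP.Con.tail e2 hadj ⟨?_, cw'⟩⟩)
          show sd x w' ≤ n
          omega
        · have h6 : a ≤ sd x w' → ∃ l ∈ bd x a, Conn c true (ann x a n) l w' := by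
            intro hA'
            by_cases hA : a ≤ sd x w
            · obtain ⟨l, hl, hl2⟩ := h5 hA
              exact ⟨l, hl, DP.Con.tail hl2 hadj ⟨⟨hA', by omega⟩, cw'⟩⟩
            · have hwa' : sd x w' = a := by omega
              exact ⟨w', hwa', DP.Con.refl ⟨⟨hA', by omega⟩, cw'⟩⟩
          by_cases hn : sd x w' < n
          · refine Or.inr (Or.inl ⟨c1, c2, ⟨s, hs, e1, DP.Con.tail e2 hadj ⟨?_, cw'⟩⟩, hn, h6⟩)
            show sd x w' ≤ n
            omega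
          · exfalso
            have hwn' : sd x w' = n := by omega
            obtain ⟨l, hl, hl2⟩ := h6 (by omega)
            rcases UJ9_three hg1.2 hu₀ hv₀ hl ⟨u₂, hu₂, cu₂⟩ ⟨v₂, hv₂, cv₂⟩ ⟨w', hwn', hl2⟩
              (fun e => hne (e.mono hA1)) with e | e
            · exact c1 ((e.trans hl2).mono hA1)
            · exact c2 ((e.trans hl2).mono hA1)
      · exact Or.inr (Or.inr h3)

end TP
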