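import Pool.Agent.helper26.SP.WI

/-!
# Module WB of part CH (project sp): basic rules for the integrals `EZ Z F`
-/

namespace TP

namespace K

open DP MeasureTheory

theorem WB : WB_stmt := by
  classical
  refine ⟨?_, ?_, ?_, ?_, ?_, ?_, ?_, ?_⟩
  · intro F
    unfold EZ Pr
    simp
  · intro Z Z' E F A B hZ hZ' hE hF hEF h0 hle
    rw [WI_EZ hE.measurableSet, WI_EZ hF.measurableSet]
    obtain ⟨Λ, h1, h2⟩ := WI_lfE (hZ.imp fun _ h => ⟨h.1.trans Set.subset_union_left, h.2⟩ :
      LocF Z (A ∪ B)) (hE.mono Set.subset_union_right)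
    obtain ⟨M, h3, h4⟩ := WI_lfE (hZ'.imp fun _ h => ⟨h.1.trans Set.subset_union_left, h.2⟩ :
      LocF Z' (A ∪ B)) (hF.mono Set.subset_union_right)
    refine ex1_mono (Λ := brs Λ ∪ brs M) (h2.mono Finset.subset_union_left)
      (h4.mono Finset.subset_union_right) fun b => ?_
    by_cases hb : b ∈ E
    · rw [ind_of_mem hb, ind_of_mem (hEF hb)]
      simpa using hle b
    · rw [ind_of_notMem hb, zero_mul]
      exact mul_nonneg (ind_nonneg F b) ((h0 b).trans (hle b))
  · intro Z r F
    unfold EZ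
    rw [← integral_const_mul]
  · intro Z W A A' F B hZ hW hF
    obtain ⟨Λ, h1, h2⟩ := hZ
    obtain ⟨M, h3, h4⟩ := hW
    refine ⟨⟨Λ ∪ M, ?_, fun b b' hb => ?_⟩, ⟨M, h3, fun b b' hb => ?_⟩, ?_⟩
    · push_cast
      exact Set.union_subset_union h1 h3
    · show Z b * W b = Z b' * W b'
      rw [h2 b b' fun v hv => hb v (Finset.mem_union_left _ hv),
        h4 b b' fun v hv => hb v (Finset.mem_union_right _ hv)]
    · show 1 - W b = 1 - W b'
      rw [h4 b b' hb]
    · have h5 : LF (brs Λ ∪ brs M) Z := (WI_lf h2).mono Finset.subset_union_left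
      have h6 : LF (brs Λ ∪ brs M) (fun b => Z b * W b) :=
        h5.comp₂ ((WI_lf h4).mono Finset.subset_union_right) (· * ·)
      unfold EZ
      rw [← integral_sub (h5.integrable P1).integrableOn (h6.integrable P1).integrableOn]
      congr 1
      funext b
      ring
  · rintro Z A A' hA ⟨Λ, h1, h2⟩
    exact ⟨Λ, h1.trans hA, h2⟩
  · intro r A
    exact ⟨∅, by simp, fun _ _ _ => rfl⟩
  · intro Z F h
    unfold EZ
    exact integral_nonneg h
  · intro Y F A B r hY hF
    have hm := hY.measurableSet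
    refine ⟨?_, ?_⟩
    · obtain ⟨Λ, h1, h2⟩ := hY
      refine ⟨Λ, h1, fun b b' hb => ?_⟩
      show Y.indicator (fun _ => r) b = Y.indicator (fun _ => r) b'
      by_cases hb' : b ∈ Y
      · rw [Set.indicator_of_mem hb', Set.indicator_of_mem ((h2 b b' hb).1 hb')]
      · rw [Set.indicator_of_notMem hb', Set.indicator_of_notMem fun h => hb' ((h2 b b' hb).2 h)]
    · unfold EZ Pr
      rw [integral_indicator_const r hm, measureReal_restrict_apply hm, smul_eq_mul, mul_comm]

end K

end TP
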