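import Pool.Agent.helper95.SP.SpecCH
import Pool.Agent.helper64.TP.BAll

/-!
# Module WI of part CH (project sp): independence for the integrals `EZ Z F`
-/

namespace TP

namespace K

open DP MeasureTheory

/-- A local function is a function of the coins of finitely many bricks. -/
theorem WI_lf {Z : (V → Bool) → ℝ} {Λ : Finset V}
    (h : ∀ b b' : V → Bool, (∀ v ∈ Λ, b (br v) = b' (br v)) → Z b = Z b') : LF (brs Λ) Z :=
  fun b b' hb => h b b' fun v hv => hb (br v) (by
    classical
    unfold brs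
    exact Finset.mem_image_of_mem _ hv)

/-- `EZ` as an expectation. -/
theorem WI_EZ {Z : (V → Bool) → ℝ} {F : Set (V → Bool)} (hF : MeasurableSet F) :
    EZ Z F = ex1 (fun b => ind F b * Z b) := by
  unfold EZ ex1
  rw [← integral_indicator hF]
  refine integral_congr_ae (Filter.Eventually.of_forall fun b => ?_)
  classical
  show Set.indicator F Z b = ind F b * Z b
  rw [Set.indicator_apply, ind_apply]
  split_ifs
  · rw [one_mul]
  · rw [zero_mul]

theorem WI_lfE {Z : (V → Bool) → ℝ} {F : Set (V → Bool)} {A : Set V} (hZ : LocF Z A)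
    (hF : Loc F A) : ∃ Λ : Finset V, (Λ : Set V) ⊆ A ∧ LF (brs Λ) (fun b => ind F b * Z b) := by
  classical
  obtain ⟨Λ, h1, h2⟩ := hZ
  obtain ⟨M, h3, h4⟩ := hF
  refine ⟨Λ ∪ M, by push_cast; exact Set.union_subset h1 h3, ?_⟩
  have h5 : LF (brs (Λ ∪ M)) Z := (WI_lf h2).mono
    (by unfold brs; exact Finset.image_subset_image Finset.subset_union_left)
  have h6 : LF (brs (Λ ∪ M)) (ind F) := h4.coin'.lf.mono
    (by unfold brs; exact Finset.image_subset_image Finset.subset_union_right)
  exact h6.comp₂ h5 (· * ·)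

theorem WI : WI_stmt := by
  intro A A' Z W E E' hd hZ hW hE hE'
  obtain ⟨Λ, h1, h2⟩ := WI_lfE hZ hE
  obtain ⟨M, h3, h4⟩ := WI_lfE hW hE'
  have hdis : Disjoint (brs Λ) (brs M) := by
    classical
    rw [Finset.disjoint_left]
    intro v hv hw
    unfold brs at hv hw
    obtain ⟨a, ha, rfl⟩ := Finset.mem_image.1 hv
    obtain ⟨b, hb, hab⟩ := Finset.mem_image.1 hw
    exact hd a (h1 ha) b (h3 hb) hab.symm
  rw [WI_EZ (hE.measurableSet.inter hE'.measurableSet), WI_EZ hE.measurableSet,
    WI_EZ hE'.measurableSet, ← Bindep_ex1 hdis h2 h4]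
  congr 1
  funext b
  rw [ind_inter]
  ring

end K

end TP
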